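import Mathlib
import Pool.Agent.Q18.P.Par

/-!
# Beilinson's conjecture for varieties with modular parts, from one product on one sequence of windows

Let `X` be smooth projective of dimension `2i + 1` over a number field `K`, `V = H^{2i+1}(X) = V_1 ⊕ … ⊕ V_m` (coefficients
`ℚ̄_ℓ`), and `CH^{i+1}(X)_0 ⊗ ℚ̄` the direct sum of the corresponding parts, of dimensions `r_1, …, r_m`; so
`∑ r_j = dim CH^{i+1}(X)_0 ⊗ ℚ̄`.  Main case: `i = 0`, `X` a curve whose Jacobian `J` is isogenous to a product of abelian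
varieties `A_f` (for example `X = X_0(N)` over `K = ℚ`, or curves which are quotients of Shimura curves over totally real
`K`); the `V_j` are the `2`-dimensional representations of the conjugates of the newforms `f`, `F_j(s) = L(f_j, s)`, and
`r_j` is the dimension of the `f_j`-part of `J(K) ⊗ ℚ̄`.  `Known` lists what is used of the parts: holomorphic of polynomial
growth in `Re s > i + 1 - η`, the Euler product, the parity `w_j` of the order at the centre (functional equation), and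
`r_j = ord` if the order is `0` or `1` (`i = 0`: Gross-Zagier, Kolyvagin, Kolyvagin-Logachev, Zhang).
`F = ∏ F_j = L(H^{2i+1}(X), s)` without the factors at the finite set `S`, `m₋ = ∑ w_j`, and ONE product

  `P(y) = ∏_{v ∉ S, q_v ≤ y} |det(1 - Frob_v q_v^{-(i+1)} | V)|`   (`i = 0`: `∏ #J(k_v)/q_v^g`).

Fix `0 < δ < 1`; `U(κ, B)` at `Y`: `∫_{Y^(1-δ)}^Y max (log P - κ log log y, 0) dy/y ≤ B log Y`.

1. `U(κ, B)` for arbitrarily large `Y` (one sequence of windows, as sparse as we like) ⟹ the Riemann hypothesis for all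
   `F_j`, and `ord F_j = r_j` for all but at most `(κ - m₋)/2` of the parts; if `κ < m₋ + 2`: Beilinson's equality for `X`,
   both sides being `m₋`.
2. If the equality `ord F_j = r_j` fails for at least `k` parts, then `U(κ, B)` fails for ALL large `Y`, for every `B` and
   every `κ < m₋ + 2k`; in particular for `κ < m₋ + 2` if Beilinson's equality fails for `X`.
3. For any one `κ` in `[m₋, m₋ + 2)`: [the Riemann hypothesis for all `F_j` and Beilinson's equality with both sides `m₋`]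
   ⟺ `U(κ, B)` for some `B` and arbitrarily large `Y` ⟺ for some `B` and all large `Y`.
4. For any real `κ`: [the Riemann hypothesis for all `F_j` and `ord F ≤ κ`] ⟺ the same two.
-/

set_option autoImplicit false

namespace Pool.Agent.Results.MP_6dc9d1_nt.ModularParts

open Filter Topology Set Complex NumberField IsDedekindDomain MeasureTheory
open Pool.Agent.Q18.P (norm Holo NoZeros Order MeanBound excess upTo)

variable {K : Type} [Field K] [NumberField K]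

/-- What is used about a part `V_j` of `H^{2i+1}(X)`: `α` are the Frobenius eigenvalues, `F` the incomplete `L`-function with
the centre `i + 1`, `r` the dimension of the part of `CH^{i+1}(X)_0`, `w` the parity of the order. -/
structure Known (i : ℕ) (S : Finset (HeightOneSpectrum (𝓞 K))) {n : ℕ} (α : HeightOneSpectrum (𝓞 K) → Fin n → ℂ)
    (F : ℂ → ℂ) (w : ℤ) (r : ℕ) : Prop where
  /-- Deligne, Weil -/
  abs : ∀ v, v ∉ S → ∀ j, ‖α v j‖ = (norm v : ℝ) ^ (((2 * i + 1 : ℕ) : ℝ) / 2)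
  holo : Holo ((i : ℝ) + 1) F
  euler : ∀ s : ℂ, (i : ℝ) + 3 / 2 < s.re →
    HasProd (fun v : {v : HeightOneSpectrum (𝓞 K) // v ∉ S} => (∏ j, (1 - α v.1 j * (norm v.1 : ℂ) ^ (-s)))⁻¹) (F s)
  range : w = 0 ∨ w = 1
  /-- the functional equation -/
  parity : ∀ e : ℤ, Order ((i : ℝ) + 1) F e → 2 ∣ e - w
  /-- Gross-Zagier, Kolyvagin -/
  zero : Order ((i : ℝ) + 1) F 0 → r = 0
  one : Order ((i : ℝ) + 1) F 1 → r = 1

/-- `P(y) = ∏_j ∏_{v ∉ S, q_v ≤ y} |∏_l (1 - α_{j,v,l} q_v^{-(i+1)})|` -/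
noncomputable def product (i : ℕ) (S : Finset (HeightOneSpectrum (𝓞 K))) {m : ℕ} {n : Fin m → ℕ}
    (α : (j : Fin m) → HeightOneSpectrum (𝓞 K) → Fin (n j) → ℂ) (y : ℝ) : ℝ :=
  ∏ j, ∏ᶠ v ∈ upTo S y, ‖∏ l, (1 - α j v l * (norm v : ℂ) ^ (-((((i : ℝ) + 1 : ℝ)) : ℂ)))‖

/-- **Beilinson's equality for varieties with modular parts and windows.** -/
theorem result (K : Type) [Field K] [NumberField K] (i m : ℕ) (n : Fin m → ℕ) (S : Finset (HeightOneSpectrum (𝓞 K)))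
    (α : (j : Fin m) → HeightOneSpectrum (𝓞 K) → Fin (n j) → ℂ) (F : Fin m → ℂ → ℂ) (w : Fin m → ℤ) (r : Fin m → ℕ)
    (h : ∀ j, Known i S (α j) (F j) (w j) (r j)) (δ : ℝ) (h0 : 0 < δ) (h1 : δ < 1) :
    -- (1) one sequence of windows
    (∀ κ B : ℝ, (∃ᶠ Y : ℝ in atTop, MeanBound δ (excess (product i S α) κ) B Y) →
      (∀ j, NoZeros ((i : ℝ) + 1) (F j)) ∧
      (Nat.card {j // ¬ Order ((i : ℝ) + 1) (F j) (r j)} : ℝ) ≤ (κ - ((∑ j, w j : ℤ) : ℝ)) / 2 ∧
      (κ < ((∑ j, w j : ℤ) : ℝ) + 2 → Order ((i : ℝ) + 1) (fun s => ∏ j, F j s) ((∑ j, r j : ℕ) : ℤ) ∧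
        ((∑ j, r j : ℕ) : ℤ) = ∑ j, w j)) ∧
    -- (2) in every window
    ((∀ k : ℕ, k ≤ Nat.card {j // ¬ Order ((i : ℝ) + 1) (F j) (r j)} → ∀ κ B : ℝ, κ < ((∑ j, w j : ℤ) : ℝ) + 2 * k →
      ∀ᶠ Y : ℝ in atTop, ¬ MeanBound δ (excess (product i S α) κ) B Y) ∧
    (¬ Order ((i : ℝ) + 1) (fun s => ∏ j, F j s) ((∑ j, r j : ℕ) : ℤ) → ∀ κ B : ℝ, κ < ((∑ j, w j : ℤ) : ℝ) + 2 →
      ∀ᶠ Y : ℝ in atTop, ¬ MeanBound δ (excess (product i S α) κ) B Y)) ∧
    -- (3) Beilinson's equality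
    (∀ κ : ℝ, ((∑ j, w j : ℤ) : ℝ) ≤ κ → κ < ((∑ j, w j : ℤ) : ℝ) + 2 → List.TFAE [
      (∀ j, NoZeros ((i : ℝ) + 1) (F j)) ∧ Order ((i : ℝ) + 1) (fun s => ∏ j, F j s) ((∑ j, r j : ℕ) : ℤ) ∧
        ((∑ j, r j : ℕ) : ℤ) = ∑ j, w j,
      ∃ B : ℝ, ∃ᶠ Y : ℝ in atTop, MeanBound δ (excess (product i S α) κ) B Y,
      ∃ B : ℝ, ∀ᶠ Y : ℝ in atTop, MeanBound δ (excess (product i S α) κ) B Y]) ∧
    -- (4) the order
    (∀ κ : ℝ, List.TFAE [
      (∀ j, NoZeros ((i : ℝ) + 1) (F j)) ∧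
        ∃ e : ℤ, Order ((i : ℝ) + 1) (fun s => ∏ j, F j s) e ∧ (e : ℝ) ≤ κ,
      ∃ B : ℝ, ∃ᶠ Y : ℝ in atTop, MeanBound δ (excess (product i S α) κ) B Y,
      ∃ B : ℝ, ∀ᶠ Y : ℝ in atTop, MeanBound δ (excess (product i S α) κ) B Y]) := by
  classical
  have hc : (i : ℝ) + 1 = (((2 * i + 1 : ℕ) : ℝ) + 1) / 2 := by
    push_cast
    ring
  have hb : ∀ j, Pool.Agent.Q18.P.Bdd (2 * i + 1) S (α j) := fun j v hv l => ((h j).abs v hv l).le
  have hE : ∀ j, Pool.Agent.Q18.P.Euler ((i : ℝ) + 1) S (α j) (F j) := fun j s hs => (h j).euler s (by linarith)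
  have hmin : ∀ j, Order ((i : ℝ) + 1) (F j) (w j) → (r j : ℤ) = w j := by
    intro j hj
    rcases (h j).range with h2 | h2
    · rw [h2] at hj ⊢
      rw [(h j).zero hj]
      rfl
    · rw [h2] at hj ⊢
      rw [(h j).one hj]
      rfl
  obtain ⟨t1, t2, t3⟩ := Pool.Agent.Q18.P.signs hc hb (fun j => (h j).holo) hE w (fun j => (h j).range)
    (fun j => (h j).parity) (fun j => Order ((i : ℝ) + 1) (F j) (r j))
    (fun j hj => by rw [hmin j hj]; exact hj) h0 h1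
  have e1 : (fun y => ∏ j, Pool.Agent.Q18.P.product ((i : ℝ) + 1) S (α j) y) = product i S α := rfl
  rw [e1] at t1 t2 t3
  have hall : (∀ j, Order ((i : ℝ) + 1) (F j) (w j)) →
      Order ((i : ℝ) + 1) (fun s => ∏ j, F j s) ((∑ j, r j : ℕ) : ℤ) ∧ ((∑ j, r j : ℕ) : ℤ) = ∑ j, w j := by
    intro h2
    have h3 : ((∑ j, r j : ℕ) : ℤ) = ∑ j, w j := by
      push_cast
      exact Finset.sum_congr rfl fun j _ => hmin j (h2 j)
    rw [h3]
    exact ⟨Pool.Agent.Q18.P.order_prod Finset.univ (fun j _ => (h j).holo) fun j _ => h2 j, rfl⟩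
  have t4 : ∀ κ B : ℝ, (∃ᶠ Y : ℝ in atTop, MeanBound δ (excess (product i S α) κ) B Y) →
      (∀ j, NoZeros ((i : ℝ) + 1) (F j)) ∧
      (Nat.card {j // ¬ Order ((i : ℝ) + 1) (F j) (r j)} : ℝ) ≤ (κ - ((∑ j, w j : ℤ) : ℝ)) / 2 ∧
      (κ < ((∑ j, w j : ℤ) : ℝ) + 2 → Order ((i : ℝ) + 1) (fun s => ∏ j, F j s) ((∑ j, r j : ℕ) : ℤ) ∧
        ((∑ j, r j : ℕ) : ℤ) = ∑ j, w j) := by
    intro κ B hB
    obtain ⟨a1, a2, a3⟩ := t1 κ B hB
    exact ⟨a1, a2, fun hκ => hall (a3 hκ)⟩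
  have neg : ∀ κ B : ℝ, ¬ (∃ᶠ Y : ℝ in atTop, MeanBound δ (excess (product i S α) κ) B Y) →
      ∀ᶠ Y : ℝ in atTop, ¬ MeanBound δ (excess (product i S α) κ) B Y := fun κ B hne =>
    Filter.not_frequently.1 hne
  refine ⟨t4, ⟨fun k hk κ B hκ => neg κ B fun hB => ?_, fun hn κ B hκ => neg κ B fun hB => ?_⟩,
    fun κ hκ1 hκ2 => ?_, fun κ => ?_⟩
  · have h2 := (t4 κ B hB).2.1
    have h3 : (k : ℝ) ≤ Nat.card {j // ¬ Order ((i : ℝ) + 1) (F j) (r j)} := by exact_mod_cast hk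
    linarith
  · exact hn ((t4 κ B hB).2.2 hκ).1
  · have t := t2 κ hκ1 hκ2
    tfae_have 1 → 3 := by
      rintro ⟨hz, ho, hr⟩
      rw [hr] at ho
      -- the orders are minimal
      have h2 : (∀ j, NoZeros ((i : ℝ) + 1) (F j)) ∧ ∃ e : Fin m → ℤ, (∀ j, Order ((i : ℝ) + 1) (F j) (e j)) ∧
          ((∑ j, e j : ℤ) : ℝ) ≤ κ := by
        refine ⟨hz, ?_⟩
        have h3 := fun j => Pool.Agent.Q18.P.order_finite (h j).holo (hz j)
        choose e he using h3
        refine ⟨e, he, ?_⟩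
        have h4 := Pool.Agent.Q18.P.order_prod Finset.univ (fun j _ => (h j).holo) fun j _ => he j
        have h5 : ∑ j, e j = ∑ j, w j := by
          unfold Order at h4 ho
          rw [h4] at ho
          exact_mod_cast ho
        rw [h5]
        exact hκ1
      exact ((t3 κ).out 0 2).1 h2
    tfae_have 3 → 2 := fun h2 => (t.out 2 1).1 h2
    tfae_have 2 → 1 := by
      rintro ⟨B, hB⟩
      obtain ⟨hz, -, h3⟩ := t4 κ B hB
      exact ⟨hz, h3 hκ2⟩
    tfae_finish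
  · have t := t3 κ
    have e3 : ((∀ j, NoZeros ((i : ℝ) + 1) (F j)) ∧ ∃ e : Fin m → ℤ, (∀ j, Order ((i : ℝ) + 1) (F j) (e j)) ∧
          ((∑ j, e j : ℤ) : ℝ) ≤ κ) ↔
        ((∀ j, NoZeros ((i : ℝ) + 1) (F j)) ∧
          ∃ e : ℤ, Order ((i : ℝ) + 1) (fun s => ∏ j, F j s) e ∧ (e : ℝ) ≤ κ) := by
      refine and_congr_right fun hz => ?_
      constructor
      · rintro ⟨e, he, hle⟩
        exact ⟨∑ j, e j, Pool.Agent.Q18.P.order_prod Finset.univ (fun j _ => (h j).holo) fun j _ => he j, hle⟩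
      · rintro ⟨e', he', hle⟩
        have h3 := fun j => Pool.Agent.Q18.P.order_finite (h j).holo (hz j)
        choose e he using h3
        have h4 := Pool.Agent.Q18.P.order_prod Finset.univ (fun j _ => (h j).holo) fun j _ => he j
        refine ⟨e, he, ?_⟩
        have h5 : ∑ j, e j = e' := by
          unfold Order at h4 he'
          rw [h4] at he'
          exact_mod_cast he'
        rw [h5]
        exact hle
    rw [e3] at t
    exact t

end Pool.Agent.Results.MP_6dc9d1_nt.ModularParts
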