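import Pool.Agent.Q193.LT.RankFin

/-!
# Ranks of Chow groups, orders of vanishing and the cubic hypersurfaces `T(x, y, z) = 1`

Let `K` be a number field. For a separated scheme `X` of finite type over `K` and an integer `m` let

* `A^{m,j}(X) = H^j(CH^{m+1}(W(X))_0 ⊗ ℚ)`, where `W(X)` is the weight complex of `X` (Gillet, Soulé;
  a bounded complex of Chow motives) and `CH^{m+1}(N)_0` the group of homologically trivial cycles of
  codimension `m + 1` of a Chow motive `N`;
* `D.fin m X` the property that all `A^{m,j}(X)` are of finite rank, and
  `D.rk m X = ∑_j (-1)^j rank A^{m,j}(X)`;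
* `D.ord m X` the order of vanishing at `s = m + 1` of the alternating product
  `∏_j L(Gr^W_{2m+1} H^{2m+1+j}_c(X), s)^{(-1)^j}` of the `L`-functions of the parts of weight
  `2m + 1` of the cohomology with compact supports (as in the problem, it is presupposed that the
  `L`-functions of motives continue meromorphically to a neighbourhood of this point).

For a smooth projective variety `Y` over `K` the rank is the rank of `CH^{m+1}(Y)_0` and the order is
`ord_{s=m+1} L(H^{2m+1}(Y), s)`, because `H^{2m+1+j}(Y)` has the weight `2m + 1 + j`, and
`W(Y) = h(Y)`. `RankFormula D Y` says that the rank of `CH^{m+1}(Y)_0` is finite and equal to the order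
of vanishing of `L(H^{2m+1}(Y), s)` at `s = m + 1`, for all `m` (the conjecture of Beilinson and Bloch
for `Y` in all codimensions; question Q1 is the case `dim Y = 2m + 1`).

**Theorem.** (1) The conjecture is true for all smooth projective varieties over `K` and all codimensions
if and only if the formula is true for the smooth affine cubic hypersurfaces `T(x, y, z) = 1` of all
trilinear forms `T` over `K`. If `K = ℚ`, it is enough to consider the hypersurfaces
`X_H : ∑_{(i, j, l) ∈ H} x_i y_j z_l = 1` of the finite sets `H` of triples.

(2) For all `n`, it is true for all smooth projective varieties of dimension at most `n` over `K` if and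
only if the formula is true for the hypersurfaces `T(x, y, z) = 1` over `K` such that one of the three
blocks of variables has at most `n + 2` variables (the other two blocks are arbitrary). In particular
(`n = 1`) the rank part of the Birch and Swinnerton-Dyer conjecture for the Jacobians of all smooth
projective curves over `K` is equivalent to the formula for the hypersurfaces with a block of at most
three variables.
-/

set_option autoImplicit false

open CategoryTheory CategoryTheory.Limits AlgebraicGeometry Pool.Agent.Y116.UV Pool.Agent.Z125.UN
  Pool.Agent.Q193.LT

namespace Pool.Agent.Results.MP_6dc9d1_nt.RanksOfCubics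

/-- The formula for all smooth projective schemes. -/
def ProjAll {K : Type} [Field K] (D : RankData K) : Prop :=
  ∀ Y : Sch K, SmoothProj Y → RankFormula D Y

/-- The formula for all smooth projective schemes of dimension at most `n`. -/
def Proj {K : Type} [Field K] (D : RankData K) (n : ℕ) : Prop :=
  ∀ Y : Sch K, SmoothProj Y → topologicalKrullDim Y.left ≤ n → RankFormula D Y

/-- The formula for all hypersurfaces `T = 1` with a block of at most `m` variables. -/
def Forms {K : Type} [Field K] (D : RankData K) (m : ℕ) : Prop :=
  ∀ (a b c : ℕ) (T : Fin a → Fin b → Fin c → K), (a ≤ m ∨ b ≤ m ∨ c ≤ m) →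
    RankFormula D (hypS T)

/-- **Ranks, orders of vanishing and cubic hypersurfaces.** See the explanations above. `hk` is
Hironaka's theorem for `K`; `point` is the trivial case of `Spec K` (no cohomology of odd weight, no
homologically trivial cycles). -/
theorem result {K : Type} [Field K] [NumberField K] {D : RankData K} (hD : Fin.IsRank D)
    (hk : Hironaka K) (point : RankFormula D (aff K K)) :
    (ProjAll D ↔ ∀ (a b c : ℕ) (T : Fin a → Fin b → Fin c → K), RankFormula D (hypS T)) ∧
    (Frac K → (ProjAll D ↔
      ∀ (a b c : ℕ) (H : Finset (Fin a × Fin b × Fin c)), RankFormula D (tripS K H))) ∧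
    ∀ n : ℕ, Proj D n ↔ Forms D (n + 2) :=
  ⟨sp_all_iff hk (Fin.bnd_rank hD point), fun hF => sp_graph_iff hk (Fin.bnd_rank hD point) hF,
    fun n => sp_iff hk (Fin.bnd_rank hD point) n⟩

end Pool.Agent.Results.MP_6dc9d1_nt.RanksOfCubics
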