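import Pool.Agent.Q5.AP.WinC
import Pool.Agent.Results.MP_b8021b_nt.ExactWindowsCentral

/-!
# Beilinson's order formula, the Riemann hypothesis and the simplicity of the zeros as ONE inequality for one window

Let `X` be a smooth projective variety of dimension `d` over a number field `K`, given by homogeneous
polynomials over `𝓞 K`, `1 ≤ m`, `2 m - 1 ≤ 2 d` (in the conjecture `d = 2 i + 1`, `m = i + 1`), let `S` be a finite
set of primes such that for `v ∉ S` the eigenvalues `α_{v,1}, …, α_{v,N}` of the Frobenius on `H^{2m-1}(X)` are given by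
the numbers of points of `X` over the finite extensions of the residue field. Let `F` be a continuation of
`L(s) = ∏_{v ∉ S} ∏_j (1 - α_{v,j} q_v^{-s})⁻¹` to a half plane `Re s > m - η`, analytic except perhaps for a pole at
`s = m`, of polynomial growth, and let `Λ` be a completed function of `F`: `Λ` is entire of order at most `3/2`,
`Λ(2m - s) = w Λ(s)`, and `Λ = γ F` with a function `γ` which is analytic without zeros for `Re s ≥ m` (the product of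
the Gamma factors, of the power of the conductor and of the Euler factors at `S`). Let `r = ord_{s=m} Λ`, let `μ_t` be the
order of `Λ` at `m + it` and

`c_Λ = 2 Λ^(r+2)(m) / ((r+1) (r+2) Λ^(r)(m))`.

For `0 < l < 1` let

`W_l(y) = ∏_{v ∉ S, y^l < q_v ≤ y} |∏_j (1 - α_{v,j} q_v^{-m})|`,  `W*_l(y) = P*(y)/P*(y^l)`,
`P*(y) = exp (- ∑_{v ∉ S, q_v^k ≤ y} tr (Frob_v^k | H^{2m-1}(X)) / (k q_v^{mk}))`

be the parts of the reciprocal Euler product at the centre in the window `(y^l, y]`, and for real `ρ`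

`S(Y) = (log Y)⁻¹ ∫_e^Y (log y · (log W*_l(y) - ρ log (1/l)))² dy/y`.

There is a COUNTABLE set `C` such that for every `l ∉ C` and every real `ρ`:

* `limsup S ≤ (1 + 1/l²) c_Λ` IF AND ONLY IF `ρ = ord_{s=m} F`, `F` has no zeros with `Re s > m`, and all zeros of `Λ`
  except perhaps `s = m` are simple;
* the inequality `limsup S ≥ (1 + 1/l²) c_Λ` always holds;
* if `ρ = ord_{s=m} F` and `F` has no zeros with `Re s > m`, then `S(Y) → (1 + 1/l²) (c_Λ + ∑_{t ≠ 0} μ_t (μ_t - 1)/t²)`.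

For every `l` one has at least `limsup S ≥ (1/l² - 1) c_Λ`. The same holds for `W_l` if `log y · (q(y) - q(y^l)) → 0`
with `q(y) = ∑_{√y < q_v ≤ y} tr (Frob_v²)/(2 q_v^{2m})`.

With `ρ = dim CH^m(X)_0 ⊗ ℚ`: Beilinson's order formula for `L(H^{2m-1}(X), s)`, the Riemann hypothesis and the
simplicity of the zeros outside of the centre are TOGETHER equivalent to one inequality, with an explicit constant, for
the primes in one kind of window `(y^l, y]`. No regulator and no leading coefficient enters.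

Proof. The mean squares (`ExactWindowsCentral` of problem `MP_b8021b_nt`) tend to `∑ (μ_t - μ_{t/l})²/t²`, which is
`(1 + 1/l²) ∑ μ_t²/t²` unless two zeros have the ratio `l`; by Hadamard's factorisation and the functional equation
`∑ μ_t/t²` is the second logarithmic derivative of `Λ(s)/(s-m)^r` at `s = m` (`Pool.Agent.Q5.SZ`).
-/

set_option autoImplicit false

namespace Pool.Agent.Results.MP_6dc9d1_nt.SimpleZerosCentral

open Filter Topology Set Complex NumberField IsDedekindDomain MeasureTheory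
open Pool.Agent.Results.MP_ec4e4b_nt.MeanProductOrder (norm IsLocal Tempered OrderRH productStar)
open Pool.Agent.Results.MP_b8021b_nt.CentralWindows (between window squares)
open Pool.Agent.Results.MP_b8021b_nt.ExactWindowsCentral (windowStar errStar err mult meanSquare BoundedMeanSquare)

variable {K : Type} [Field K] [NumberField K] {N : ℕ}

/-- `Λ` is a completed function of `F`: it is entire, of order at most `3/2`, satisfies `Λ(2m - s) = w Λ(s)`, and is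
equal to `γ F` on a half plane `Re s > m - η` (except perhaps at `s = m`), where `γ` is analytic without zeros for
`Re s ≥ m`. -/
structure Completed (m : ℕ) (F Λ : ℂ → ℂ) : Prop where
  entire : Differentiable ℂ Λ
  growth : ∃ C : ℝ, ∀ s : ℂ, ‖Λ s‖ ≤ Real.exp (C * (1 + ‖s‖) ^ (3 / 2 : ℝ))
  functional : ∃ w : ℂ, ∀ s : ℂ, Λ (2 * m - s) = w * Λ s
  factor : ∃ γ : ℂ → ℂ, (∀ s : ℂ, (m : ℝ) ≤ s.re → AnalyticAt ℂ γ s ∧ γ s ≠ 0) ∧
    ∃ η : ℝ, 0 < η ∧ ∀ s : ℂ, m - η < s.re → s ≠ m → Λ s = γ s * F s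

/-- All zeros of `Λ` except perhaps `s = m` are simple. -/
def Simple (m : ℕ) (Λ : ℂ → ℂ) : Prop := ∀ s : ℂ, s ≠ m → Λ s = 0 → deriv Λ s ≠ 0

/-- The order of `Λ` at `s = m`. -/
noncomputable def ord (m : ℕ) (Λ : ℂ → ℂ) : ℕ := (analyticOrderAt Λ m).toNat

/-- `c_Λ = 2 Λ^(r+2)(m) / ((r+1) (r+2) Λ^(r)(m))`, `r` the order of `Λ` at `s = m`. -/
noncomputable def cL (m : ℕ) (Λ : ℂ → ℂ) : ℝ :=
  (2 * iteratedDeriv (ord m Λ + 2) Λ m /
    ((ord m Λ + 1) * (ord m Λ + 2) * iteratedDeriv (ord m Λ) Λ m)).re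

/-- `limsup S ≤ c`. -/
def AtMost (S : ℝ → ℝ) (c : ℝ) : Prop := ∀ ε : ℝ, 0 < ε → ∀ᶠ Y : ℝ in atTop, S Y ≤ c + ε

/-- The sharp bound for one `l`: `limsup ≤ (1 + 1/l²) c_Λ` if and only if `OrderRH m F ρ` and all zeros of `Λ` except
perhaps `s = m` are simple; always `limsup ≥ (1 + 1/l²) c_Λ`; under `OrderRH m F ρ` the limit is
`(1 + 1/l²) (c_Λ + ∑ μ_t (μ_t - 1)/t²)`. -/
def SharpBound (m : ℕ) (F Λ : ℂ → ℂ) (ρ l : ℝ) (δ : ℝ → ℝ) : Prop :=
  (AtMost (meanSquare δ) ((1 + 1 / l ^ 2) * cL m Λ) ↔ OrderRH m F ρ ∧ Simple m Λ) ∧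
  (∀ B : ℝ, (∀ᶠ Y : ℝ in atTop, meanSquare δ Y ≤ B) → (1 + 1 / l ^ 2) * cL m Λ ≤ B) ∧
  (OrderRH m F ρ → ∃ M : ℝ,
    HasSum (fun t : ℝ => (mult m Λ t : ℝ) * ((mult m Λ t : ℝ) - 1) / t ^ 2) M ∧ 0 ≤ M ∧
    Tendsto (meanSquare δ) atTop (𝓝 ((1 + 1 / l ^ 2) * (cL m Λ + M))))

/-- The lower bound `limsup ≥ (1/l² - 1) c_Λ`. -/
def LowerBound (m : ℕ) (Λ : ℂ → ℂ) (l : ℝ) (δ : ℝ → ℝ) : Prop :=
  ∀ B : ℝ, (∀ᶠ Y : ℝ in atTop, meanSquare δ Y ≤ B) → (1 / l ^ 2 - 1) * cL m Λ ≤ B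

/-- The condition for the windows over the primes. -/
def Rate (m : ℕ) (S : Finset (HeightOneSpectrum (𝓞 K)))
    (α : HeightOneSpectrum (𝓞 K) → Fin N → ℂ) (l : ℝ) : Prop :=
  Tendsto (fun y : ℝ => Real.log y * (squares m S α y - squares m S α (y ^ l))) atTop (𝓝 0)

/-! ### translation -/

open Pool.Agent.Results.MP_ec4e4b_nt.MeanProductOrder (frob tempered)
open Pool.Agent.Results.MP_b8021b_nt.CentralWindows (wv_eq squares_eq)
open Pool.Agent.Results.MP_b8021b_nt.ExactWindowsCentral (wl_eq')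
open Pool.Agent.Q5.AP (WinLaw win_pack win_packP comp_win bad_countable Bad)
open Pool.Agent.TH270.MS (Mc)
open Pool.Agent.Q5.BP (mu mu_sq cn_ms)
open Pool.Agent.Q5.SZ (CompOf cA multA Simp ordA)

theorem mc_V {X : Type} {d : ℕ} {N : X → ℕ} {α : X → Fin d → ℂ} {Ψ G₀ : ℂ → ℂ} {k κ : ℕ} {η C : ℝ}
    (H : Mc N α Ψ G₀ k κ η C) (hz : ∀ s : ℂ, 0 < s.re → Ψ s ≠ 0) :
    ∃ V : ℝ, HasSum (fun t : ℝ => ((mu Ψ t : ℝ) / t) ^ 2) V := by
  obtain ⟨e, g, p, he, Q⟩ := H.cn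
  have hz' := H.zf.2 hz
  have hr : (p : ℝ) = k + ((p : ℝ) - k) := by ring
  obtain ⟨q, hq, -⟩ := Q.sq hz' hr
  obtain ⟨V, hV, -⟩ := cn_ms Q hz' hr hq
  exact ⟨V, by rw [← mu_sq H]; exact hV⟩

theorem comp_of {m : ℕ} {F Λ : ℂ → ℂ} (h : Completed m F Λ) : CompOf F Λ m := by
  obtain ⟨h1, h2, ⟨w, h3⟩, γ, h4, η, h5, h6⟩ := h
  refine ⟨h1, h2, ⟨w, fun s => ?_⟩, γ, h4, η, h5, fun s hs hs1 => h6 s hs (by simpa using hs1)⟩
  have e : ((m : ℝ) : ℂ) = (m : ℂ) := by push_cast; rfl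
  rw [e]
  exact h3 s

theorem analytic_of {m : ℕ} {S : Finset (HeightOneSpectrum (𝓞 K))}
    {α : HeightOneSpectrum (𝓞 K) → Fin N → ℂ} {F : ℂ → ℂ} (hF : Tempered m S α F) {s : ℂ}
    (hs : (m : ℝ) ≤ s.re) (hs1 : s ≠ m) : AnalyticAt ℂ F s := by
  obtain ⟨⟨η, C, k, κ, G, hη, hG, hGF⟩, -⟩ := hF
  have ho : IsOpen {z : ℂ | m - η < z.re} := isOpen_lt continuous_const Complex.continuous_re
  have hs' : s ∈ {z : ℂ | m - η < z.re} := by
    show m - η < s.re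
    linarith
  have hGa : AnalyticAt ℂ G s := by
    have h : DifferentiableOn ℂ G {z : ℂ | m - η < z.re} :=
      fun z hz => (hG z hz).1.differentiableWithinAt
    exact h.analyticAt (ho.mem_nhds hs')
  have h1 : AnalyticAt ℂ (fun z : ℂ => ((z - m) ^ k)⁻¹ * G z) s := by
    refine AnalyticAt.mul (AnalyticAt.inv (by fun_prop) (pow_ne_zero _ (sub_ne_zero.2 hs1))) hGa
  refine h1.congr ?_
  filter_upwards [ho.mem_nhds hs', isOpen_ne.mem_nhds hs1] with z hz hz1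
  rw [hGF z hz hz1]
  have : (z - m) ^ k ≠ 0 := pow_ne_zero _ (sub_ne_zero.2 hz1)
  field_simp

/-- **The sharp bound for the windows of the central Euler product.** -/
theorem result (K : Type) [Field K] [NumberField K] (n : ℕ)
    (X : Set (MvPolynomial (Fin n) (𝓞 K))) (d m N : ℕ) (hm : 1 ≤ m) (hd : 2 * m - 1 ≤ 2 * d)
    (S : Finset (HeightOneSpectrum (𝓞 K))) (α : HeightOneSpectrum (𝓞 K) → Fin N → ℂ)
    (hα : IsLocal X d (2 * m - 1) S α) (F : ℂ → ℂ) (hF : Tempered m S α F) (Λ : ℂ → ℂ)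
    (hΛ : Completed m F Λ) :
    (∀ l : ℝ, 0 < l → l < 1 → (∀ ρ : ℝ, LowerBound m Λ l (errStar m S α ρ l)) ∧
      (Rate m S α l → ∀ ρ : ℝ, LowerBound m Λ l (err m S α ρ l))) ∧
    ∃ C : Set ℝ, C.Countable ∧ ∀ l : ℝ, 0 < l → l < 1 → l ∉ C →
      (∀ ρ : ℝ, SharpBound m F Λ ρ l (errStar m S α ρ l)) ∧
      (Rate m S α l → ∀ ρ : ℝ, SharpBound m F Λ ρ l (err m S α ρ l)) := by
  have hmc : ((m : ℝ) : ℂ) = (m : ℂ) := by push_cast; rfl
  have E := (frob hα).sys hd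
  obtain ⟨G₀, k, κ, η, C, H⟩ := Q5.VA.temp_data E ((frob hα).real hd) (tempered hm hF)
  have h0 : ∀ ρ : ℝ, OrderRH m F ρ ↔ ((∀ s : ℂ, 0 < s.re → F ((m : ℝ) + s) ≠ 0) ∧
      ∃ e : ℤ, ρ = e ∧ meromorphicOrderAt (fun s => F ((m : ℝ) + s)) 0 = e) := by
    intro ρ
    rw [Q5.VA.mero_shiftC, Q5.VA.zeros_shiftC, hmc]
    exact and_comm
  have e1 : cA Λ m = cL m Λ := by
    unfold cA cL ordA ord
    rw [hmc]
  have e2 : ∀ (G : ℂ → ℂ), multA G m = mult m G := by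
    intro G
    funext t
    unfold multA mult
    rw [hmc]
  have e3 : Simp Λ m ↔ Simple m Λ := by
    unfold Simp Simple
    rw [hmc]
  have hmu : ∀ t : ℝ, mu (fun s => F ((m : ℝ) + s)) t = multA F m t := fun t =>
    Pool.Agent.Q5.BP.mu_shift F ((m : ℝ) : ℂ) t
  have hC := comp_of hΛ
  have han : ∀ s : ℂ, (m : ℝ) ≤ s.re → s ≠ (m : ℝ) → AnalyticAt ℂ F s := fun s hs hs1 =>
    analytic_of hF hs (by rwa [hmc] at hs1)
  have hVV : (∀ s : ℂ, (m : ℝ) < s.re → F s ≠ 0) →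
      ∃ V : ℝ, HasSum (fun t : ℝ => ((multA F m t : ℝ) / t) ^ 2) V := by
    intro h
    obtain ⟨V, hV⟩ := mc_V H (fun s hs => h _ (by simpa using hs))
    refine ⟨V, ?_⟩
    simp only [hmu] at hV
    exact hV
  have law1 : ∀ l : ℝ, 0 < l → l < 1 → ∀ ρ : ℝ,
      WinLaw (OrderRH m F ρ) (multA F m) l (errStar m S α ρ l) := fun l hl hl1 ρ =>
    win_pack H ρ hl hl1 (h0 ρ) hmu fun y _ => wl_eq' hm S α ρ y
  have law2 : ∀ l : ℝ, 0 < l → l < 1 → Rate m S α l → ∀ ρ : ℝ,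
      WinLaw (OrderRH m F ρ) (multA F m) l (err m S α ρ l) := by
    intro l hl hl1 hR ρ
    refine win_packP H ρ hl hl1 (h0 ρ) hmu ?_ fun y hy => (wv_eq hm hd hα ρ hl1 hy).symm
    rw [← squares_eq hm]
    exact hR
  have main : ∀ l : ℝ, 0 < l → ∀ (ρ : ℝ) (δ : ℝ → ℝ), WinLaw (OrderRH m F ρ) (multA F m) l δ →
      LowerBound m Λ l δ ∧ (l ∉ Bad F Λ m → SharpBound m F Λ ρ l δ) := by
    intro l hl ρ δ hW
    obtain ⟨t, -⟩ := hW
    have h1 : OrderRH m F ρ → ∃ W : ℝ, HasSum (fun t : ℝ => (((multA F m t : ℝ) -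
        multA F m (t / l)) / t) ^ 2) W ∧ Tendsto (meanSquare δ) atTop (𝓝 W) := fun h => (t.out 0 2).1 h
    have h2 : (∃ B : ℝ, ∀ᶠ X : ℝ in atTop, meanSquare δ X ≤ B) → OrderRH m F ρ := by
      rintro ⟨B, hB⟩
      have h3 : OrderRH m F ρ ↔ BoundedMeanSquare δ := t.out 0 1
      refine h3.2 ⟨B, ?_⟩
      filter_upwards [hB, eventually_gt_atTop 1] with X hX hX1
      have hl : 0 < Real.log X := Real.log_pos hX1
      unfold meanSquare at hX
      rwa [div_le_iff₀ hl] at hX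
    obtain ⟨k1, k2⟩ := comp_win hC han (P := OrderRH m F ρ) (S := meanSquare δ) hl (fun h => h.2) h1
      (fun h => hVV h.2) h2
    rw [e1, e2, e3] at k2
    rw [e1] at k1
    exact ⟨k1, k2⟩
  refine ⟨fun l hl hl1 => ⟨fun ρ => (main l hl ρ _ (law1 l hl hl1 ρ)).1,
    fun hR ρ => (main l hl ρ _ (law2 l hl hl1 hR ρ)).1⟩, Bad F Λ m, bad_countable hC han hVV,
    fun l hl hl1 hlC => ⟨fun ρ => (main l hl ρ _ (law1 l hl hl1 ρ)).2 hlC,
      fun hR ρ => (main l hl ρ _ (law2 l hl hl1 hR ρ)).2 hlC⟩⟩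

end Pool.Agent.Results.MP_6dc9d1_nt.SimpleZerosCentral
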